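import Mathlib
import Pool.Agent.H6.KL.Fam

set_option autoImplicit false

namespace Pool.Agent.Results.MP_68822d_al.CountablyLargePieces

open Cardinal

universe u

/-- Let `G` be an infinite group and `κ` an infinite cardinal, `κ ≤ |G|`. There is a partition `P` of `G` into
`κ` subsets such that each member `A` of `P` is left and right large with countable sets of cardinality less
than `κ`: `G = F A` and `G = A F'` with `|F|, |F'| < κ` and `|F|, |F'| ≤ ℵ₀`. -/
theorem result (G : Type u) [Group G] [Infinite G] (κ : Cardinal.{u}) (h0 : ℵ₀ ≤ κ) (hκ : κ ≤ #G) :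
    ∃ P : Set (Set G), Setoid.IsPartition P ∧ #P = κ ∧
      ∀ A ∈ P, (∃ F : Set G, #F < κ ∧ #F ≤ ℵ₀ ∧ ∀ g : G, ∃ f ∈ F, ∃ a ∈ A, f * a = g) ∧
        (∃ F : Set G, #F < κ ∧ #F ≤ ℵ₀ ∧ ∀ g : G, ∃ a ∈ A, ∃ f ∈ F, a * f = g) :=
  Pool.Agent.H6.KL.main κ h0 hκ

end Pool.Agent.Results.MP_68822d_al.CountablyLargePieces
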